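import Mathlib

/-!
# Chains on the flag complex of a graph, signs, suspension
-/

namespace Pool.Agent.H38.Flag

open Finset

variable {V : Type*} [Fintype V] [LinearOrder V]

/-- The sign `(-1)^i`, where `i` is the number of elements of `F` which are smaller than `x`. -/
def eps (k : Type*) [Field k] (x : V) (F : Finset V) : k := (-1) ^ (F.filter (· < x)).card

/-- The simplicial boundary of the chain `z`, a function which assigns a coefficient to every finite
set of vertices: the coefficient of `F` in the boundary of the simplex `insert x F`, `x ∉ F`, is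
`eps k x F`. -/
def bd {k : Type*} [Field k] (z : Finset V → k) (F : Finset V) : k :=
  ∑ x ∈ Fᶜ, eps k x F * z (insert x F)

/-- `z` is a chain of the flag complex of `G` whose simplices have `m` vertices: it vanishes outside
the cliques of `G` with `m` vertices. For `m = 0` the only such clique is the empty set. -/
def IsChain {k : Type*} [Field k] (G : SimpleGraph V) (m : ℕ) (z : Finset V → k) : Prop :=
  ∀ F, z F ≠ 0 → G.IsNClique m F

/-- The flag complex of `G` is acyclic over `k`: all its reduced homology groups with coefficients in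
`k` vanish (`m` is the number of vertices of the simplices, one more than their dimension). -/
def FlagAcyclic (k : Type*) [Field k] (G : SimpleGraph V) : Prop :=
  ∀ (m : ℕ) (z : Finset V → k), IsChain G m z → bd z = 0 →
    ∃ w : Finset V → k, IsChain G (m + 1) w ∧ bd w = z

variable {k : Type*} [Field k]

lemma eps_mul_self (x : V) (F : Finset V) : eps k x F * eps k x F = 1 := by
  unfold eps
  rw [← pow_add, ← two_mul, pow_mul]
  simp

lemma eps_ne_zero (x : V) (F : Finset V) : eps k x F ≠ 0 := by
  intro h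
  have := eps_mul_self (k := k) x F
  rw [h] at this
  simp at this

lemma eps_insert_lt {x c : V} {F : Finset V} (hc : c ∉ F) (h : c < x) :
    eps k x (insert c F) = - eps k x F := by
  unfold eps
  rw [Finset.filter_insert, if_pos h, Finset.card_insert_of_notMem, pow_succ]
  · ring
  · simp [hc]

lemma eps_insert_not_lt {x c : V} {F : Finset V} (h : ¬ c < x) :
    eps k x (insert c F) = eps k x F := by
  unfold eps
  rw [Finset.filter_insert, if_neg h]

lemma eps_swap {x y : V} {F : Finset V} (hxy : x ≠ y) (hx : x ∉ F) (hy : y ∉ F) :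
    eps k x F * eps k y (insert x F) = - (eps k y F * eps k x (insert y F)) := by
  rcases lt_or_gt_of_ne hxy with h | h
  · rw [eps_insert_lt hx h, eps_insert_not_lt (not_lt.2 h.le)]
    ring
  · rw [eps_insert_lt hy h, eps_insert_not_lt (not_lt.2 h.le)]
    ring

lemma eps_swap' {x y : V} {F : Finset V} (hxy : x ≠ y) (hx : x ∉ F) (hy : y ∉ F) :
    eps k x (insert y F) * eps k y (insert x F) = - (eps k x F * eps k y F) := by
  rcases lt_or_gt_of_ne hxy with h | h
  · rw [eps_insert_lt hx h, eps_insert_not_lt (not_lt.2 h.le)]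
    ring
  · rw [eps_insert_lt hy h, eps_insert_not_lt (not_lt.2 h.le)]
    ring

lemma bd_zero : bd (0 : Finset V → k) = 0 := by
  funext F
  simp [bd]

lemma bd_bd (z : Finset V → k) : bd (bd z) = 0 := by
  funext F
  show bd (bd z) F = 0
  unfold bd
  simp_rw [Finset.mul_sum]
  rw [Finset.sum_sigma']
  refine Finset.sum_involution (fun a _ => ⟨a.2, a.1⟩) ?_ ?_ ?_ ?_
  · rintro ⟨x, y⟩ h
    simp only [mem_sigma, mem_compl, mem_insert, not_or] at h
    obtain ⟨hx, hyx, hy⟩ := h
    simp only
    rw [← mul_assoc, ← mul_assoc, eps_swap (Ne.symm hyx) hx hy, Finset.insert_comm]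
    ring
  · rintro ⟨x, y⟩ h _ he
    simp only [mem_sigma, mem_compl, mem_insert, not_or] at h
    obtain ⟨hx, hyx, hy⟩ := h
    simp only [Sigma.mk.injEq] at he
    exact hyx he.1
  · rintro ⟨x, y⟩ h
    simp only [mem_sigma, mem_compl, mem_insert, not_or] at h ⊢
    obtain ⟨hx, hyx, hy⟩ := h
    exact ⟨hy, Ne.symm hyx, hx⟩
  · rintro ⟨x, y⟩ h
    rfl

/-- The cone over a chain. -/
def cone (c : V) (z : Finset V → k) (Q : Finset V) : k :=
  if c ∈ Q then eps k c (Q.erase c) * z (Q.erase c) else 0

lemma bd_cone_of_notMem (c : V) (z : Finset V → k) {F : Finset V} (hc : c ∉ F) :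
    bd (cone c z) F = z F := by
  unfold bd
  rw [Finset.sum_eq_single c]
  · unfold cone
    rw [if_pos (mem_insert_self _ _), Finset.erase_insert hc, ← mul_assoc, eps_mul_self, one_mul]
  · intro x _ hxc
    unfold cone
    rw [if_neg, mul_zero]
    simp only [mem_insert, not_or]
    exact ⟨Ne.symm hxc, hc⟩
  · intro h
    exact absurd (mem_compl.2 hc) h

lemma bd_cone_of_mem (c : V) (z : Finset V → k) (hz : ∀ Q, c ∈ Q → z Q = 0) {F : Finset V}
    (hc : c ∉ F) : bd (cone c z) (insert c F) = - (eps k c F * bd z F) := by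
  unfold bd
  rw [Finset.mul_sum, ← Finset.sum_neg_distrib]
  have h1 : (insert c F)ᶜ ⊆ Fᶜ := by
    intro x hx
    simp only [mem_compl, mem_insert, not_or] at hx ⊢
    exact hx.2
  rw [← Finset.sum_subset h1]
  · refine Finset.sum_congr rfl ?_
    intro x hx
    simp only [mem_compl, mem_insert, not_or] at hx
    obtain ⟨hxc, hxF⟩ := hx
    unfold cone
    rw [if_pos (by simp)]
    have h2 : (insert x (insert c F)).erase c = insert x F := by
      rw [Finset.insert_comm, Finset.erase_insert]
      simp only [mem_insert, not_or]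
      exact ⟨Ne.symm hxc, hc⟩
    rw [h2, ← mul_assoc, eps_swap' hxc hxF hc]
    ring
  · intro x hx hx'
    simp only [mem_compl, mem_insert, not_or, not_and_or, not_not] at hx hx'
    rcases hx' with h | h
    · subst h
      rw [hz _ (mem_insert_self _ _)]
      simp
    · exact absurd h hx

lemma bd_sub (z w : Finset V → k) : bd (z - w) = bd z - bd w := by
  funext F
  simp [bd, mul_sub, Finset.sum_sub_distrib]

/-- Suspension: a cycle on `W'` and two further vertices adjacent to all of `W'`. -/
lemma susp (G : SimpleGraph V) (n : ℕ) (W' W : Finset V) (hW : W' ⊆ W) (c c' : V) (hc : c ∉ W')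
    (hc' : c' ∉ W') (hne : c ≠ c') (hcW : c ∈ W) (hcW' : c' ∈ W) (hadj : ∀ x ∈ W', G.Adj c x)
    (hadj' : ∀ x ∈ W', G.Adj c' x) (z : Finset V → k) (hz : z ≠ 0)
    (hs : ∀ F, z F ≠ 0 → F ⊆ W' ∧ G.IsNClique n F) (hb : bd z = 0) :
    ∃ w : Finset V → k, w ≠ 0 ∧ (∀ F, w F ≠ 0 → F ⊆ W ∧ G.IsNClique (n + 1) F) ∧ bd w = 0 := by
  have hzc : ∀ d : V, d ∉ W' → ∀ Q, d ∈ Q → z Q = 0 := by
    intro d hd Q hQ
    by_contra h
    exact hd ((hs Q h).1 hQ)
  have hsupp : ∀ d : V, d ∉ W' → d ∈ W → (∀ x ∈ W', G.Adj d x) → ∀ F, cone d z F ≠ 0 →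
      d ∈ F ∧ F ⊆ W ∧ G.IsNClique (n + 1) F := by
    intro d hd hdW hda F hF
    unfold cone at hF
    split_ifs at hF with hdF
    · have h1 : z (F.erase d) ≠ 0 := fun h => hF (by rw [h, mul_zero])
      obtain ⟨h2, h3⟩ := hs _ h1
      refine ⟨hdF, ?_, ?_⟩
      · intro x hx
        by_cases hxd : x = d
        · rw [hxd]; exact hdW
        · exact hW (h2 (Finset.mem_erase.2 ⟨hxd, hx⟩))
      · have h4 := h3.insert (a := d) (fun b hb => hda b (h2 hb))
        rwa [Finset.insert_erase hdF] at h4
    · exact absurd rfl hF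
  have hb' : ∀ d : V, d ∉ W' → ∀ F, d ∈ F → bd (cone d z) F = 0 := by
    intro d hd F hF
    have h1 : F = insert d (F.erase d) := (Finset.insert_erase hF).symm
    rw [h1, bd_cone_of_mem d z (hzc d hd) (Finset.notMem_erase d F), hb]
    simp
  obtain ⟨F0, hF0⟩ : ∃ F, z F ≠ 0 := by
    by_contra h
    push Not at h
    exact hz (funext h)
  refine ⟨cone c z - cone c' z, ?_, ?_, ?_⟩
  · intro h
    have h1 := congrFun h (insert c F0)
    have hcF : c ∉ F0 := fun h => hc ((hs F0 hF0).1 h)
    have hcF' : c' ∉ insert c F0 := by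
      simp only [mem_insert, not_or]
      exact ⟨Ne.symm hne, fun h => hc' ((hs F0 hF0).1 h)⟩
    simp only [Pi.sub_apply, Pi.zero_apply] at h1
    unfold cone at h1
    rw [if_pos (mem_insert_self _ _), if_neg hcF', Finset.erase_insert hcF, sub_zero] at h1
    rcases mul_eq_zero.1 h1 with h2 | h2
    · exact eps_ne_zero _ _ h2
    · exact hF0 h2
  · intro F hF
    simp only [Pi.sub_apply] at hF
    by_cases h1 : cone c z F = 0
    · have h2 : cone c' z F ≠ 0 := by
        intro h
        rw [h1, h, sub_zero] at hF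
        exact hF rfl
      exact (hsupp c' hc' hcW' hadj' F h2).2
    · exact (hsupp c hc hcW hadj F h1).2
  · rw [bd_sub]
    funext F
    simp only [Pi.sub_apply, Pi.zero_apply]
    by_cases h1 : c ∈ F
    · rw [hb' c hc F h1]
      by_cases h2 : c' ∈ F
      · rw [hb' c' hc' F h2, sub_zero]
      · rw [bd_cone_of_notMem c' z h2, hzc c hc F h1, sub_zero]
    · rw [bd_cone_of_notMem c z h1]
      by_cases h2 : c' ∈ F
      · rw [hb' c' hc' F h2, hzc c' hc' F h2, sub_zero]
      · rw [bd_cone_of_notMem c' z h2, sub_self]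

end Pool.Agent.H38.Flag
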