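import Pool.Agent.H38.Flag.A

/-!
# Counting cliques and common neighbours
-/

namespace Pool.Agent.H38.Flag

open Finset

variable {V : Type*} [Fintype V] [LinearOrder V]

open Classical in
/-- The common neighbours in `W` of the vertices of `F`. -/
noncomputable def ext (G : SimpleGraph V) (W F : Finset V) : Finset V :=
  W.filter (fun y => ∀ x ∈ F, G.Adj x y)

open Classical in
/-- The vertices in `W` not adjacent to `x`. -/
noncomputable def non (G : SimpleGraph V) (W : Finset V) (x : V) : Finset V :=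
  W.filter (fun y => ¬ G.Adj x y)

open Classical in
/-- The cliques with `m` vertices in `W`. -/
noncomputable def cl (G : SimpleGraph V) (W : Finset V) (m : ℕ) : Finset (Finset V) :=
  (W.powersetCard m).filter (fun F => G.IsClique (F : Set V))

lemma mem_ext {G : SimpleGraph V} {W F : Finset V} {y : V} :
    y ∈ ext G W F ↔ y ∈ W ∧ ∀ x ∈ F, G.Adj x y := by
  simp [ext]

lemma mem_non {G : SimpleGraph V} {W : Finset V} {x y : V} :
    y ∈ non G W x ↔ y ∈ W ∧ ¬ G.Adj x y := by
  simp [non]

lemma mem_cl {G : SimpleGraph V} {W F : Finset V} {m : ℕ} :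
    F ∈ cl G W m ↔ F ⊆ W ∧ G.IsNClique m F := by
  simp only [cl, mem_filter, mem_powersetCard, SimpleGraph.isNClique_iff]
  tauto

lemma notMem_of_mem_ext {G : SimpleGraph V} {W F : Finset V} {y : V} (h : y ∈ ext G W F) :
    y ∉ F := by
  intro hy
  exact G.irrefl ((mem_ext.1 h).2 y hy)

lemma insert_mem_cl {G : SimpleGraph V} {W F : Finset V} {m : ℕ} {y : V} (hF : F ∈ cl G W m)
    (h : y ∈ ext G W F) : insert y F ∈ cl G W (m + 1) := by
  obtain ⟨h1, h2⟩ := mem_cl.1 hF
  obtain ⟨h3, h4⟩ := mem_ext.1 h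
  refine mem_cl.2 ⟨Finset.insert_subset h3 h1, h2.insert (fun b hb => (h4 b hb).symm)⟩

lemma erase_mem_cl {G : SimpleGraph V} {W R : Finset V} {m : ℕ} {y : V}
    (hR : R ∈ cl G W (m + 1)) (h : y ∈ R) : R.erase y ∈ cl G W m := by
  obtain ⟨h1, h2⟩ := mem_cl.1 hR
  refine mem_cl.2 ⟨(Finset.erase_subset _ _).trans h1, ?_⟩
  rw [SimpleGraph.isNClique_iff] at h2 ⊢
  refine ⟨?_, ?_⟩
  · exact h2.1.subset (by simp)
  · rw [Finset.card_erase_of_mem h, h2.2]
    rfl

lemma mem_ext_erase {G : SimpleGraph V} {W R : Finset V} {m : ℕ} {y : V}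
    (hR : R ∈ cl G W m) (h : y ∈ R) : y ∈ ext G W (R.erase y) := by
  obtain ⟨h1, h2⟩ := mem_cl.1 hR
  refine mem_ext.2 ⟨h1 h, ?_⟩
  intro x hx
  rw [Finset.mem_erase] at hx
  exact h2.1 (by exact_mod_cast hx.2) (by exact_mod_cast h) hx.1

lemma swap_sum {M : Type*} [AddCommMonoid M] (G : SimpleGraph V) (W : Finset V) (m : ℕ)
    (f : Finset V → V → M) :
    ∑ F ∈ cl G W m, ∑ y ∈ ext G W F, f F y = ∑ R ∈ cl G W (m + 1), ∑ y ∈ R, f (R.erase y) y := by
  rw [Finset.sum_sigma', Finset.sum_sigma']
  refine Finset.sum_nbij' (fun a => ⟨insert a.2 a.1, a.2⟩) (fun a => ⟨a.1.erase a.2, a.2⟩) ?_ ?_ ?_ ?_ ?_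
  · rintro ⟨F, y⟩ h
    simp only [mem_sigma] at h ⊢
    exact ⟨insert_mem_cl h.1 h.2, mem_insert_self _ _⟩
  · rintro ⟨R, y⟩ h
    simp only [mem_sigma] at h ⊢
    exact ⟨erase_mem_cl h.1 h.2, mem_ext_erase h.1 h.2⟩
  · rintro ⟨F, y⟩ h
    simp only [mem_sigma] at h
    simp only [Finset.erase_insert (notMem_of_mem_ext h.2)]
  · rintro ⟨R, y⟩ h
    simp only [mem_sigma] at h
    simp only [Finset.insert_erase h.2]
  · rintro ⟨F, y⟩ h
    simp only [mem_sigma] at h
    simp only [Finset.erase_insert (notMem_of_mem_ext h.2)]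

lemma card_le_ext (G : SimpleGraph V) (W F : Finset V) (s : ℕ)
    (h : ∀ x ∈ F, (non G W x).card ≤ s) : W.card ≤ (ext G W F).card + F.card * s := by
  classical
  have h1 : W ⊆ ext G W F ∪ F.biUnion (fun x => non G W x) := by
    intro y hy
    by_cases h2 : y ∈ ext G W F
    · exact Finset.mem_union_left _ h2
    · apply Finset.mem_union_right
      rw [Finset.mem_biUnion]
      by_contra h3
      push Not at h3
      apply h2
      refine mem_ext.2 ⟨hy, fun x hx => ?_⟩
      by_contra h4
      exact h3 x hx (mem_non.2 ⟨hy, h4⟩)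
  calc W.card ≤ (ext G W F ∪ F.biUnion (fun x => non G W x)).card := Finset.card_le_card h1
    _ ≤ (ext G W F).card + (F.biUnion (fun x => non G W x)).card := Finset.card_union_le _ _
    _ ≤ (ext G W F).card + F.card * s := by
        gcongr
        exact Finset.card_biUnion_le_card_mul _ _ _ h

lemma ext_card_le_insert (G : SimpleGraph V) (W F : Finset V) (s : ℕ) (y : V)
    (h : (non G W y).card ≤ s) : (ext G W F).card ≤ (ext G W (insert y F)).card + s := by
  classical
  have h1 : ext G W F ⊆ ext G W (insert y F) ∪ non G W y := by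
    intro z hz
    obtain ⟨h2, h3⟩ := mem_ext.1 hz
    by_cases h4 : G.Adj y z
    · apply Finset.mem_union_left
      refine mem_ext.2 ⟨h2, ?_⟩
      intro x hx
      rcases Finset.mem_insert.1 hx with h5 | h5
      · rw [h5]; exact h4
      · exact h3 x h5
    · exact Finset.mem_union_right _ (mem_non.2 ⟨h2, h4⟩)
  calc (ext G W F).card ≤ (ext G W (insert y F) ∪ non G W y).card := Finset.card_le_card h1
    _ ≤ (ext G W (insert y F)).card + (non G W y).card := Finset.card_union_le _ _
    _ ≤ _ := by gcongr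

/-- For a clique `Q` with `m` vertices in a graph without cliques of `m + 1` vertices. -/
lemma two_mul_card_le (G : SimpleGraph V) (W Q : Finset V) (m s : ℕ) (hQ : Q ∈ cl G W m)
    (hno : cl G W (m + 1) = ∅) (h : ∀ x ∈ W, (non G W x).card ≤ s) :
    2 * W.card ≤ ∑ y ∈ Q, (ext G W (Q.erase y)).card + m * s := by
  classical
  obtain ⟨hQW, hQc⟩ := mem_cl.1 hQ
  have key : ∀ z ∈ W, 2 ≤ (Q.filter (fun y => z ∈ ext G W (Q.erase y))).card +
      (Q.filter (fun x => z ∈ non G W x)).card := by
    intro z hz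
    set N := Q.filter (fun x => z ∈ non G W x) with hN
    have hNpos : 0 < N.card := by
      rw [Finset.card_pos]
      by_contra h0
      rw [Finset.not_nonempty_iff_eq_empty] at h0
      have h1 : z ∈ ext G W Q := by
        refine mem_ext.2 ⟨hz, fun x hx => ?_⟩
        by_contra h2
        have h3 : x ∈ N := by
          rw [hN, Finset.mem_filter]
          exact ⟨hx, mem_non.2 ⟨hz, h2⟩⟩
        rw [h0] at h3
        exact absurd h3 (Finset.notMem_empty _)
      have h2 := insert_mem_cl hQ h1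
      rw [hno] at h2
      exact absurd h2 (Finset.notMem_empty _)
    by_cases h2 : 2 ≤ N.card
    · omega
    · have h3 : N.card = 1 := by omega
      obtain ⟨x, hx⟩ := Finset.card_eq_one.1 h3
      have hxQ : x ∈ Q := by
        have : x ∈ N := by rw [hx]; exact Finset.mem_singleton_self x
        exact (Finset.mem_filter.1 this).1
      have h4 : x ∈ Q.filter (fun y => z ∈ ext G W (Q.erase y)) := by
        rw [Finset.mem_filter]
        refine ⟨hxQ, mem_ext.2 ⟨hz, fun u hu => ?_⟩⟩
        rw [Finset.mem_erase] at hu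
        by_contra h5
        have h6 : u ∈ N := by
          rw [hN, Finset.mem_filter]
          exact ⟨hu.2, mem_non.2 ⟨hz, h5⟩⟩
        rw [hx, Finset.mem_singleton] at h6
        exact hu.1 h6
      have h5 : 0 < (Q.filter (fun y => z ∈ ext G W (Q.erase y))).card :=
        Finset.card_pos.2 ⟨x, h4⟩
      omega
  have hsum := Finset.sum_le_sum key
  rw [Finset.sum_const, smul_eq_mul, Finset.sum_add_distrib] at hsum
  have e1 : ∑ z ∈ W, (Q.filter (fun y => z ∈ ext G W (Q.erase y))).card =
      ∑ y ∈ Q, (ext G W (Q.erase y)).card := by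
    simp_rw [Finset.card_filter]
    rw [Finset.sum_comm]
    refine Finset.sum_congr rfl fun y _ => ?_
    rw [← Finset.card_filter]
    congr 1
    ext z
    simp only [Finset.mem_filter]
    exact ⟨fun h => h.2, fun h => ⟨(mem_ext.1 h).1, h⟩⟩
  have e2 : ∑ z ∈ W, (Q.filter (fun x => z ∈ non G W x)).card = ∑ x ∈ Q, (non G W x).card := by
    simp_rw [Finset.card_filter]
    rw [Finset.sum_comm]
    refine Finset.sum_congr rfl fun y _ => ?_
    rw [← Finset.card_filter]
    congr 1
    ext z
    simp only [Finset.mem_filter]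
    exact ⟨fun h => h.2, fun h => ⟨(mem_non.1 h).1, h⟩⟩
  rw [e1, e2] at hsum
  have e3 : ∑ x ∈ Q, (non G W x).card ≤ m * s := by
    calc ∑ x ∈ Q, (non G W x).card ≤ ∑ x ∈ Q, s := Finset.sum_le_sum fun x hx => h x (hQW hx)
      _ = m * s := by rw [Finset.sum_const, smul_eq_mul, hQc.2]
  rw [mul_comm] at hsum
  omega

/-- Among the permutations `σ` of `V`, the share of those for which `σ y` is the least value of `σ`
on `S` is `1 / |S|`. -/
lemma perm_count (S : Finset V) (y : V) (hy : y ∈ S) :
    S.card * (Finset.univ.filter (fun σ : Equiv.Perm V => ∀ x ∈ S, σ y ≤ σ x)).card =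
      (Finset.univ : Finset (Equiv.Perm V)).card := by
  classical
  have h1 : ∀ y' ∈ S, (Finset.univ.filter (fun σ : Equiv.Perm V => ∀ x ∈ S, σ y' ≤ σ x)).card =
      (Finset.univ.filter (fun σ : Equiv.Perm V => ∀ x ∈ S, σ y ≤ σ x)).card := by
    intro y' hy'
    have hsw : ∀ x ∈ S, Equiv.swap y y' x ∈ S := by
      intro x hx
      by_cases h1 : x = y
      · rw [h1, Equiv.swap_apply_left]; exact hy'
      · by_cases h2 : x = y'
        · rw [h2, Equiv.swap_apply_right]; exact hy
        · rw [Equiv.swap_apply_of_ne_of_ne h1 h2]; exact hx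
    refine Finset.card_bij' (fun σ _ => σ * Equiv.swap y y') (fun σ _ => σ * Equiv.swap y y') ?_ ?_ ?_ ?_
    · intro σ hσ
      simp only [mem_filter, mem_univ, true_and] at hσ ⊢
      intro x hx
      rw [Equiv.Perm.mul_apply, Equiv.Perm.mul_apply, Equiv.swap_apply_left]
      exact hσ _ (hsw x hx)
    · intro σ hσ
      simp only [mem_filter, mem_univ, true_and] at hσ ⊢
      intro x hx
      rw [Equiv.Perm.mul_apply, Equiv.Perm.mul_apply, Equiv.swap_apply_right]
      exact hσ _ (hsw x hx)
    · intro σ _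
      simp [mul_assoc]
    · intro σ _
      simp [mul_assoc]
  calc S.card * (Finset.univ.filter (fun σ : Equiv.Perm V => ∀ x ∈ S, σ y ≤ σ x)).card
      = ∑ y' ∈ S, (Finset.univ.filter (fun σ : Equiv.Perm V => ∀ x ∈ S, σ y' ≤ σ x)).card := by
        rw [Finset.sum_congr rfl h1, Finset.sum_const, smul_eq_mul]
    _ = ∑ σ : Equiv.Perm V, (S.filter (fun y' => ∀ x ∈ S, σ y' ≤ σ x)).card := by
        simp_rw [Finset.card_filter]
        rw [Finset.sum_comm]
    _ = ∑ σ : Equiv.Perm V, 1 := by
        refine Finset.sum_congr rfl fun σ _ => ?_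
        obtain ⟨a, ha, hmin⟩ := Finset.exists_min_image S σ ⟨y, hy⟩
        rw [Finset.card_eq_one]
        refine ⟨a, ?_⟩
        ext b
        simp only [mem_filter, mem_singleton]
        constructor
        · rintro ⟨hb, hb'⟩
          exact σ.injective (le_antisymm (hb' a ha) (hmin b hb))
        · rintro rfl
          exact ⟨ha, hmin⟩
    _ = _ := by simp

end Pool.Agent.H38.Flag
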