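import Pool.Agent.H38.Flag.B

/-!
# Cycles from counting
-/

namespace Pool.Agent.H38.Flag

open Finset

variable {V : Type*} [Fintype V] [LinearOrder V] {k : Type*} [Field k]

open Classical in
/-- The cliques `R` with `p + 1` vertices such that for one vertex `y` of `R` the value `σ y` is the
least one on the other vertices of `R` and their common neighbours. -/
noncomputable def T (G : SimpleGraph V) (W : Finset V) (p : ℕ) (σ : Equiv.Perm V) :
    Finset (Finset V) :=
  (cl G W (p + 1)).filter
    (fun R => ∃ y ∈ R, ∀ x ∈ R.erase y ∪ ext G W (R.erase y), σ y ≤ σ x)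

lemma mem_T {G : SimpleGraph V} {W : Finset V} {p : ℕ} {σ : Equiv.Perm V} {R : Finset V} :
    R ∈ T G W p σ ↔ R ∈ cl G W (p + 1) ∧
      ∃ y ∈ R, ∀ x ∈ R.erase y ∪ ext G W (R.erase y), σ y ≤ σ x := by
  simp [T]

/-- The boundaries of the cliques in `T` are linearly independent. -/
lemma eq_zero_of_T (G : SimpleGraph V) (W : Finset V) (p : ℕ) (σ : Equiv.Perm V)
    (w : Finset V → k) (hw : ∀ R, w R ≠ 0 → R ∈ T G W p σ) (hb : bd w = 0) : w = 0 := by
  have key : ∀ a : V, ∀ R : Finset V, ∀ y ∈ R,
      (∀ x ∈ R.erase y ∪ ext G W (R.erase y), σ y ≤ σ x) → σ y = a → w R = 0 := by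
    intro a
    induction a using WellFoundedGT.induction with
    | _ a ih =>
      intro R y hy hwit hya
      by_contra hR
      have hRT := (mem_T.1 (hw R hR)).1
      have h0 := congrFun hb (R.erase y)
      unfold bd at h0
      rw [Finset.sum_eq_single y] at h0
      · rw [Finset.insert_erase hy] at h0
        simp only [Pi.zero_apply] at h0
        rcases mul_eq_zero.1 h0 with h | h
        · exact eps_ne_zero _ _ h
        · exact hR h
      · intro x hx hxy
        rw [Finset.mem_compl] at hx
        by_contra h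
        have hw' : w (insert x (R.erase y)) ≠ 0 := fun h' => h (by rw [h', mul_zero])
        obtain ⟨hcl, y', hy', hwit'⟩ := mem_T.1 (hw _ hw')
        by_cases hyx : y' = x
        · subst hyx
          rw [Finset.erase_insert hx] at hwit'
          have h1 : σ y' ≤ σ y :=
            hwit' y (Finset.mem_union_right _ (mem_ext_erase hRT hy))
          have h2 : y' ∈ ext G W (R.erase y) := by
            have := mem_ext_erase hcl (Finset.mem_insert_self y' (R.erase y))
            rwa [Finset.erase_insert hx] at this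
          have h3 : σ y ≤ σ y' := hwit y' (Finset.mem_union_right _ h2)
          exact hxy (σ.injective (le_antisymm h1 h3))
        · have hy'2 : y' ∈ R.erase y := (Finset.mem_insert.1 hy').resolve_left hyx
          have h1 : σ y ≤ σ y' := hwit y' (Finset.mem_union_left _ hy'2)
          have h2 : σ y ≠ σ y' := fun h => (Finset.mem_erase.1 hy'2).1 (σ.injective h).symm
          have h3 : a < σ y' := by
            rw [← hya]
            exact lt_of_le_of_ne h1 h2
          exact hw' (ih (σ y') h3 _ y' hy' hwit' rfl)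
      · intro h
        exact absurd (Finset.mem_compl.2 (Finset.notMem_erase y R)) h
  funext R
  by_contra hR
  obtain ⟨_, y, hy, hwit⟩ := mem_T.1 (hw R hR)
  exact hR (key (σ y) R y hy hwit rfl)

open Classical in
/-- Extension by zero. -/
noncomputable def extend (s : Finset (Finset V)) (z : s → k) (Q : Finset V) : k :=
  if h : Q ∈ s then z ⟨Q, h⟩ else 0

lemma bd_add (z w : Finset V → k) : bd (z + w) = bd z + bd w := by
  funext F
  simp [bd, mul_add, Finset.sum_add_distrib]

lemma bd_smul (c : k) (z : Finset V → k) : bd (c • z) = c • bd z := by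
  funext F
  simp only [bd, Pi.smul_apply, smul_eq_mul, Finset.mul_sum]
  exact Finset.sum_congr rfl fun x _ => by ring

lemma extend_add (s : Finset (Finset V)) (z w : s → k) :
    extend s (z + w) = extend s z + extend s w := by
  funext Q
  simp only [extend, Pi.add_apply]
  split_ifs <;> simp

lemma extend_smul (s : Finset (Finset V)) (c : k) (z : s → k) :
    extend s (c • z) = c • extend s z := by
  funext Q
  simp only [extend, Pi.smul_apply]
  split_ifs <;> simp

/-- The boundary of a chain, restricted to a set of faces. -/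
noncomputable def Phi (s t : Finset (Finset V)) : (s → k) →ₗ[k] (t → k) where
  toFun z := fun R => bd (extend s z) R.1
  map_add' z w := by
    funext R
    simp only [extend_add, bd_add, Pi.add_apply]
  map_smul' c z := by
    funext R
    simp only [extend_smul, bd_smul, Pi.smul_apply, RingHom.id_apply]

lemma exists_kernel (G : SimpleGraph V) (W : Finset V) (p : ℕ) (σ : Equiv.Perm V)
    (hcard : (cl G W (p + 1)).card < (cl G W (p + 2)).card + (T G W p σ).card) :
    ∃ z : Finset V → k, z ≠ 0 ∧ (∀ F, z F ≠ 0 → F ⊆ W ∧ G.IsNClique (p + 2) F) ∧ bd z = 0 := by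
  classical
  have hsub : T G W p σ ⊆ cl G W (p + 1) := fun R hR => (mem_T.1 hR).1
  have hlt : Module.finrank k (((cl G W (p + 1) \ T G W p σ : Finset (Finset V))) → k) <
      Module.finrank k ((cl G W (p + 2)) → k) := by
    rw [Module.finrank_fintype_fun_eq_card, Module.finrank_fintype_fun_eq_card,
      Fintype.card_coe, Fintype.card_coe, Finset.card_sdiff_of_subset hsub]
    have := Finset.card_le_card hsub
    omega
  have hker := (Phi (k := k) (cl G W (p + 2))
    (cl G W (p + 1) \ T G W p σ)).ker_ne_bot_of_finrank_lt hlt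
  obtain ⟨z, hz, hz0⟩ := Submodule.exists_mem_ne_zero_of_ne_bot hker
  have hsupp : ∀ F, extend (cl G W (p + 2)) z F ≠ 0 → F ∈ cl G W (p + 2) := by
    intro F hF
    by_contra h
    unfold extend at hF
    rw [dif_neg h] at hF
    exact hF rfl
  refine ⟨extend (cl G W (p + 2)) z, ?_, fun F hF => mem_cl.1 (hsupp F hF), ?_⟩
  · intro h
    apply hz0
    funext Q
    have := congrFun h Q.1
    unfold extend at this
    rw [dif_pos Q.2] at this
    exact this
  · apply eq_zero_of_T G W p σ
    · intro R hR
      by_contra hRT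
      -- R is a clique
      have hRcl : R ∈ cl G W (p + 1) := by
        unfold bd at hR
        obtain ⟨x, hx, hx'⟩ := Finset.exists_ne_zero_of_sum_ne_zero hR
        have h1 : extend (cl G W (p + 2)) z (insert x R) ≠ 0 := fun h => hx' (by rw [h, mul_zero])
        have h2 := erase_mem_cl (hsupp _ h1) (Finset.mem_insert_self x R)
        rwa [Finset.erase_insert (Finset.mem_compl.1 hx)] at h2
      have h1 : R ∈ cl G W (p + 1) \ T G W p σ := Finset.mem_sdiff.2 ⟨hRcl, hRT⟩
      have h2 := congrFun (LinearMap.mem_ker.1 hz) ⟨R, h1⟩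
      exact hR h2
    · exact bd_bd _

/-- The numerical inequality. -/
lemma ineq (u n K t : ℝ) (hK : 0 < K) (ht : 0 ≤ t) (hu : 0 < u) (hn : 1 ≤ n)
    (h1 : 2 * u * t ≤ (2 * u + n - 1) * K) (h2 : n - 1 < 2 * u) :
    0 < (n + 1) * K ^ 2 + (u - 1) * K * t - u * t ^ 2 := by
  have e : 4 * u * ((n + 1) * K ^ 2 + (u - 1) * K * t - u * t ^ 2) =
      K ^ 2 * (n + 1) * (2 * u - n + 1) +
      ((2 * u + n - 1) * K - 2 * u * t) * ((n + 1) * K + 2 * u * t) := by ring
  have p1 : 0 < K ^ 2 * (n + 1) * (2 * u - n + 1) := by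
    have : 0 < 2 * u - n + 1 := by linarith
    positivity
  have p2 : 0 ≤ ((2 * u + n - 1) * K - 2 * u * t) * ((n + 1) * K + 2 * u * t) := by
    apply mul_nonneg (by linarith)
    positivity
  have p3 : 0 < 4 * u * ((n + 1) * K ^ 2 + (u - 1) * K * t - u * t ^ 2) := by
    rw [e]; linarith
  have p4 : 0 < 4 * u := by linarith
  exact (mul_pos_iff_of_pos_left p4).1 p3

/-- The average of the number of elements of `T`. -/
lemma exists_perm (G : SimpleGraph V) (W : Finset V) (p : ℕ)
    (hpos : ∀ F ∈ cl G W p, 0 < (ext G W F).card) :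
    ∃ σ : Equiv.Perm V, ∑ F ∈ cl G W p, ((ext G W F).card : ℝ) / (p + (ext G W F).card) ≤
      (T G W p σ).card := by
  classical
  set E : ℝ := ∑ F ∈ cl G W p, ((ext G W F).card : ℝ) / (p + (ext G W F).card) with hE
  set N : ℝ := ((Finset.univ : Finset (Equiv.Perm V)).card : ℝ) with hN
  have hNpos : 0 < N := by
    rw [hN]
    exact_mod_cast Finset.card_pos.2 ⟨1, Finset.mem_univ _⟩
  -- number of permutations
  let f : Finset V → V → ℝ := fun F y =>
    ((Finset.univ.filter (fun σ : Equiv.Perm V => ∀ x ∈ F ∪ ext G W F, σ y ≤ σ x)).card : ℝ)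
  have hf : ∀ F ∈ cl G W p, ∀ y ∈ ext G W F, f F y = N / (p + (ext G W F).card) := by
    intro F hF y hy
    have h1 := perm_count (F ∪ ext G W F) y (Finset.mem_union_right _ hy)
    have h2 : (F ∪ ext G W F).card = p + (ext G W F).card := by
      rw [Finset.card_union_of_disjoint, (mem_cl.1 hF).2.2]
      rw [Finset.disjoint_right]
      intro a ha
      exact notMem_of_mem_ext ha
    rw [h2] at h1
    have h3 : (((p : ℝ) + (ext G W F).card)) * f F y = N := by
      rw [hN]
      simp only [f]
      exact_mod_cast h1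
    have h4 : (0:ℝ) < (p : ℝ) + (ext G W F).card := by
      have := hpos F hF
      positivity
    field_simp
    linarith
  have hsum : N * E ≤ ∑ σ : Equiv.Perm V, ((T G W p σ).card : ℝ) := by
    have e1 : N * E = ∑ F ∈ cl G W p, ∑ y ∈ ext G W F, f F y := by
      rw [hE, Finset.mul_sum]
      refine Finset.sum_congr rfl fun F hF => ?_
      rw [Finset.sum_congr rfl (hf F hF), Finset.sum_const, nsmul_eq_mul]
      ring
    rw [e1, swap_sum]
    have e2 : ∀ R ∈ cl G W (p + 1), ∑ y ∈ R, f (R.erase y) y ≤
        ∑ σ : Equiv.Perm V, if R ∈ T G W p σ then (1:ℝ) else 0 := by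
      intro R hR
      have e3 : ∑ y ∈ R, f (R.erase y) y = ∑ σ : Equiv.Perm V, ∑ y ∈ R,
          if (∀ x ∈ R.erase y ∪ ext G W (R.erase y), σ y ≤ σ x) then (1:ℝ) else 0 := by
        rw [Finset.sum_comm]
        refine Finset.sum_congr rfl fun y _ => ?_
        simp only [f]
        rw [Finset.card_filter]
        push_cast
        rfl
      rw [e3]
      refine Finset.sum_le_sum fun σ _ => ?_
      by_cases hRT : ∃ y ∈ R, ∀ x ∈ R.erase y ∪ ext G W (R.erase y), σ y ≤ σ x
      · rw [if_pos (mem_T.2 ⟨hR, hRT⟩)]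
        obtain ⟨y, hy, hwit⟩ := hRT
        rw [Finset.sum_eq_single y]
        · split_ifs <;> norm_num
        · intro y' hy' hne
          rw [if_neg]
          intro hwit'
          have a1 : σ y ≤ σ y' := hwit y' (Finset.mem_union_left _ (Finset.mem_erase.2 ⟨hne, hy'⟩))
          have a2 : σ y' ≤ σ y := hwit' y (Finset.mem_union_left _
            (Finset.mem_erase.2 ⟨Ne.symm hne, hy⟩))
          exact hne (σ.injective (le_antisymm a2 a1))
        · intro h
          exact absurd hy h
      · rw [if_neg (fun h => hRT (mem_T.1 h).2)]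
        push Not at hRT
        apply le_of_eq
        apply Finset.sum_eq_zero
        intro y hy
        rw [if_neg]
        push Not
        exact hRT y hy
    calc ∑ R ∈ cl G W (p + 1), ∑ y ∈ R, f (R.erase y) y
        ≤ ∑ R ∈ cl G W (p + 1), ∑ σ : Equiv.Perm V, (if R ∈ T G W p σ then (1:ℝ) else 0) :=
          Finset.sum_le_sum e2
      _ = ∑ σ : Equiv.Perm V, ∑ R ∈ cl G W (p + 1), (if R ∈ T G W p σ then (1:ℝ) else 0) :=
          Finset.sum_comm
      _ = ∑ σ : Equiv.Perm V, ((T G W p σ).card : ℝ) := by
          refine Finset.sum_congr rfl fun σ _ => ?_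
          rw [← Finset.sum_filter, Finset.sum_const, nsmul_eq_mul, mul_one]
          congr 2
          ext R
          rw [Finset.mem_filter]
          exact ⟨fun h => h.2, fun h => ⟨(mem_T.1 h).1, h⟩⟩
  have hsum2 : ∑ σ : Equiv.Perm V, E ≤ ∑ σ : Equiv.Perm V, ((T G W p σ).card : ℝ) := by
    rw [Finset.sum_const, nsmul_eq_mul]
    exact hsum
  obtain ⟨σ, _, hσ⟩ := Finset.exists_le_of_sum_le (Finset.univ_nonempty) hsum2
  exact ⟨σ, hσ⟩

end Pool.Agent.H38.Flag
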