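import Pool.Agent.H38.Flag.C

/-!
# The main counting argument and the existence of a cycle
-/

namespace Pool.Agent.H38.Flag

open Finset

variable {V : Type*} [Fintype V] [LinearOrder V] {k : Type*} [Field k]

lemma cl_nonempty (G : SimpleGraph V) (W : Finset V) (p s : ℕ)
    (hnon : ∀ x ∈ W, (non G W x).card ≤ s) (hW : (p + 1) * s + 2 ≤ W.card) :
    ∀ j, j ≤ p + 2 → (cl G W j).Nonempty := by
  intro j
  induction j with
  | zero =>
    intro _
    exact ⟨∅, mem_cl.2 ⟨Finset.empty_subset _, by simp [SimpleGraph.isNClique_iff]⟩⟩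
  | succ j ih =>
    intro hj
    obtain ⟨F, hF⟩ := ih (by omega)
    have h1 := card_le_ext G W F s (fun x hx => hnon x ((mem_cl.1 hF).1 hx))
    rw [(mem_cl.1 hF).2.2] at h1
    have h2 : j * s ≤ (p + 1) * s := Nat.mul_le_mul_right s (by omega)
    have h3 : 0 < (ext G W F).card := by omega
    obtain ⟨y, hy⟩ := Finset.card_pos.1 h3
    exact ⟨_, insert_mem_cl hF hy⟩

lemma count (G : SimpleGraph V) (W : Finset V) (p s : ℕ) (hno : cl G W (p + 3) = ∅)
    (hnon : ∀ x ∈ W, (non G W x).card ≤ s) (hW : W.card = (p + 1) * s + 2)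
    (hlt : ∀ R ∈ cl G W (p + 1), (ext G W R).card + 1 ≤ s) :
    ∃ σ : Equiv.Perm V, (cl G W (p + 1)).card < (cl G W (p + 2)).card + (T G W p σ).card := by
  classical
  have hext : ∀ j, ∀ F ∈ cl G W j, (p + 1) * s + 2 ≤ (ext G W F).card + j * s := by
    intro j F hF
    have h1 := card_le_ext G W F s (fun x hx => hnon x ((mem_cl.1 hF).1 hx))
    rw [(mem_cl.1 hF).2.2] at h1
    omega
  have hne := cl_nonempty G W p s hnon hW.ge
  have hext1 : ∀ R ∈ cl G W (p + 1), 2 ≤ (ext G W R).card := by
    intro R hR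
    have := hext (p + 1) R hR
    omega
  have hext0 : ∀ F ∈ cl G W p, s + 2 ≤ (ext G W F).card := by
    intro F hF
    have := hext p F hF
    have e : (p + 1) * s = p * s + s := by ring
    omega
  obtain ⟨R0, hR0⟩ := hne (p + 1) (by omega)
  have hs3 : 3 ≤ s := by
    have h1 := hext1 R0 hR0
    have h2 := hlt R0 hR0
    omega
  -- degree sum for each top clique
  have hQ : ∀ Q ∈ cl G W (p + 2),
      2 * ((p + 1) * s + 2) ≤ ∑ y ∈ Q, (ext G W (Q.erase y)).card + (p + 2) * s := by
    intro Q hQ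
    have := two_mul_card_le G W Q (p + 2) s hQ hno hnon
    rw [hW] at this
    exact this
  have hs2 : p + 6 ≤ 2 * s := by
    obtain ⟨Q, hQ0⟩ := hne (p + 2) le_rfl
    have h1 := hQ Q hQ0
    have h2 : ∑ y ∈ Q, ((ext G W (Q.erase y)).card + 1) ≤ ∑ y ∈ Q, s :=
      Finset.sum_le_sum fun y hy => hlt _ (erase_mem_cl hQ0 hy)
    rw [Finset.sum_add_distrib, Finset.sum_const, Finset.sum_const, smul_eq_mul, smul_eq_mul,
      (mem_cl.1 hQ0).2.2] at h2
    have e1 : (p + 1) * s = p * s + s := by ring
    have e2 : (p + 2) * s = p * s + 2 * s := by ring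
    rw [e1] at h1
    rw [e2] at h1 h2
    omega
  -- real numbers
  have hS3 : (3:ℝ) ≤ s := by exact_mod_cast hs3
  have hS2 : (p:ℝ) + 6 ≤ 2 * s := by exact_mod_cast hs2
  set K : ℝ := ((cl G W (p + 2)).card : ℝ) with hK
  set t : ℝ := ((cl G W (p + 1)).card : ℝ) with ht
  have hKpos : 0 < K := by
    rw [hK]; exact_mod_cast Finset.card_pos.2 (hne (p + 2) le_rfl)
  have htpos : 0 < t := by
    rw [ht]; exact_mod_cast Finset.card_pos.2 (hne (p + 1) (by omega))
  have hp0 : (0:ℝ) ≤ p := by positivity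
  -- first inequality
  have I1 : 2 * ((s:ℝ) - 1) * t ≤ (2 * s + p - 2) * K := by
    have e1 : t = ∑ Q ∈ cl G W (p + 2), ∑ y ∈ Q, (1:ℝ) / (ext G W (Q.erase y)).card := by
      rw [← swap_sum G W (p + 1) (fun R _ => (1:ℝ) / (ext G W R).card), ht, Finset.card_eq_sum_ones]
      push_cast
      refine Finset.sum_congr rfl fun R hR => ?_
      have h1 := hext1 R hR
      have h2 : (0:ℝ) < (ext G W R).card := by
        have : 0 < (ext G W R).card := by omega
        exact_mod_cast this
      rw [Finset.sum_const, nsmul_eq_mul]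
      field_simp
    have e2 : ∀ Q ∈ cl G W (p + 2), ∑ y ∈ Q, (1:ℝ) / (ext G W (Q.erase y)).card ≤
        (2 * s + p - 2) / (2 * (s - 1)) := by
      intro Q hQ0
      have h1 : ∑ y ∈ Q, (1:ℝ) / (ext G W (Q.erase y)).card ≤
          ∑ y ∈ Q, ((s:ℝ) + 1 - (ext G W (Q.erase y)).card) / (2 * (s - 1)) := by
        refine Finset.sum_le_sum fun y hy => ?_
        have hR := erase_mem_cl hQ0 hy
        have a1 : (2:ℝ) ≤ (ext G W (Q.erase y)).card := by exact_mod_cast hext1 _ hR
        have a2 : ((ext G W (Q.erase y)).card : ℝ) + 1 ≤ s := by exact_mod_cast hlt _ hR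
        rw [div_le_div_iff₀ (by linarith) (by linarith)]
        nlinarith [mul_nonneg (sub_nonneg.2 a1) (sub_nonneg.2 a2)]
      refine h1.trans ?_
      rw [← Finset.sum_div]
      apply div_le_div_of_nonneg_right _ (by linarith)
      rw [Finset.sum_sub_distrib, Finset.sum_const, nsmul_eq_mul, (mem_cl.1 hQ0).2.2]
      have h2 : (2 * (((p:ℝ) + 1) * s + 2)) ≤
          ∑ y ∈ Q, ((ext G W (Q.erase y)).card : ℝ) + (p + 2) * s := by
        exact_mod_cast hQ Q hQ0
      push_cast
      nlinarith
    have h3 : t ≤ K * ((2 * s + p - 2) / (2 * (s - 1))) := by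
      rw [e1]
      calc _ ≤ ∑ Q ∈ cl G W (p + 2), (2 * (s:ℝ) + p - 2) / (2 * (s - 1)) := Finset.sum_le_sum e2
        _ = _ := by rw [Finset.sum_const, nsmul_eq_mul]
    have h4 : (0:ℝ) < 2 * (s - 1) := by linarith
    calc 2 * ((s:ℝ) - 1) * t ≤ 2 * ((s:ℝ) - 1) * (K * ((2 * s + p - 2) / (2 * (s - 1)))) := by
          gcongr
      _ = (2 * s + p - 2) * K := by
          have h5 : (s:ℝ) - 1 ≠ 0 := by
            intro h
            linarith
          field_simp
  -- first moment
  have M1 : ∑ F ∈ cl G W p, ((ext G W F).card : ℝ) = (p + 1) * t := by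
    have h1 := swap_sum G W p (fun _ _ => (1:ℝ))
    simp only [Finset.sum_const, nsmul_eq_mul, mul_one] at h1
    rw [h1]
    have h2 : ∀ R ∈ cl G W (p + 1), (R.card : ℝ) = p + 1 := by
      intro R hR
      rw [(mem_cl.1 hR).2.2]
      push_cast
      ring
    rw [Finset.sum_congr rfl h2, Finset.sum_const, nsmul_eq_mul]
    ring
  have M1' : ∑ R ∈ cl G W (p + 1), ((ext G W R).card : ℝ) = (p + 2) * K := by
    have h1 := swap_sum G W (p + 1) (fun _ _ => (1:ℝ))
    simp only [Finset.sum_const, nsmul_eq_mul, mul_one] at h1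
    rw [h1]
    have h2 : ∀ R ∈ cl G W (p + 2), (R.card : ℝ) = p + 2 := by
      intro R hR
      rw [(mem_cl.1 hR).2.2]
      push_cast
      ring
    rw [Finset.sum_congr rfl h2, Finset.sum_const, nsmul_eq_mul]
    ring
  -- second moment
  have M2 : ∑ F ∈ cl G W p, ((ext G W F).card : ℝ) * ((ext G W F).card - s) ≤
      (p + 1) * (p + 2) * K := by
    have h1 : ∑ F ∈ cl G W p, ((ext G W F).card : ℝ) * ((ext G W F).card - s) ≤
        ∑ F ∈ cl G W p, ∑ y ∈ ext G W F, ((ext G W (insert y F)).card : ℝ) := by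
      refine Finset.sum_le_sum fun F hF => ?_
      have h2 : ((ext G W F).card : ℝ) * ((ext G W F).card - s) =
          ∑ y ∈ ext G W F, (((ext G W F).card : ℝ) - s) := by
        rw [Finset.sum_const, nsmul_eq_mul]
      rw [h2]
      refine Finset.sum_le_sum fun y hy => ?_
      have h3 := ext_card_le_insert G W F s y (hnon y (mem_ext.1 hy).1)
      have h4 : ((ext G W F).card : ℝ) ≤ (ext G W (insert y F)).card + s := by exact_mod_cast h3
      linarith
    refine h1.trans ?_
    rw [swap_sum G W p (fun F y => ((ext G W (insert y F)).card : ℝ))]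
    have h5 : ∀ R ∈ cl G W (p + 1), ∑ y ∈ R, ((ext G W (insert y (R.erase y))).card : ℝ) =
        (p + 1) * (ext G W R).card := by
      intro R hR
      have h6 : ∀ y ∈ R, ((ext G W (insert y (R.erase y))).card : ℝ) = (ext G W R).card := by
        intro y hy
        rw [Finset.insert_erase hy]
      rw [Finset.sum_congr rfl h6, Finset.sum_const, nsmul_eq_mul, (mem_cl.1 hR).2.2]
      push_cast
      ring
    rw [Finset.sum_congr rfl h5, ← Finset.mul_sum, M1']
    apply le_of_eq
    ring
  -- the random set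
  have hpos : ∀ F ∈ cl G W p, 0 < (ext G W F).card := by
    intro F hF
    have := hext0 F hF
    omega
  obtain ⟨σ, hσ⟩ := exists_perm G W p hpos
  refine ⟨σ, ?_⟩
  have hmpos : ∀ F ∈ cl G W p, (0:ℝ) < (ext G W F).card := by
    intro F hF
    exact_mod_cast hpos F hF
  have E1 : ((p + 1) * t) ^ 2 / ∑ F ∈ cl G W p, ((ext G W F).card : ℝ) * (p + (ext G W F).card) ≤
      ∑ F ∈ cl G W p, ((ext G W F).card : ℝ) / (p + (ext G W F).card) := by
    rw [← M1]
    refine (Finset.sq_sum_div_le_sum_sq_div _ _ ?_).trans (le_of_eq ?_)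
    · intro F hF
      have := hmpos F hF
      positivity
    · refine Finset.sum_congr rfl fun F hF => ?_
      have := hmpos F hF
      field_simp
  have D1 : ∑ F ∈ cl G W p, ((ext G W F).card : ℝ) * (p + (ext G W F).card) ≤
      (p + 1) * ((p + 2) * K + (s + p) * t) := by
    have h1 : ∑ F ∈ cl G W p, ((ext G W F).card : ℝ) * (p + (ext G W F).card) =
        ∑ F ∈ cl G W p, ((ext G W F).card : ℝ) * ((ext G W F).card - s) +
        (s + p) * ∑ F ∈ cl G W p, ((ext G W F).card : ℝ) := by
      rw [Finset.mul_sum, ← Finset.sum_add_distrib]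
      exact Finset.sum_congr rfl fun F _ => by ring
    rw [h1, M1]
    nlinarith
  have D0 : 0 < ∑ F ∈ cl G W p, ((ext G W F).card : ℝ) * (p + (ext G W F).card) := by
    apply Finset.sum_pos
    · intro F hF
      have := hmpos F hF
      positivity
    · exact hne p (by omega)
  have E2 : ((p + 1) * t) ^ 2 / ((p + 1) * ((p + 2) * K + (s + p) * t)) ≤
      ((T G W p σ).card : ℝ) := by
    refine le_trans ?_ (E1.trans hσ)
    exact div_le_div_of_nonneg_left (by positivity) D0 D1
  have E3 := ineq ((s:ℝ) - 1) (p + 1) K t hKpos htpos.le (by linarith) (by linarith)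
    (by nlinarith [I1]) (by linarith)
  have hden : 0 < (p + 2) * K + (s + p) * t := by positivity
  have E4 : t < K + ((p + 1) * t) ^ 2 / ((p + 1) * ((p + 2) * K + (s + p) * t)) := by
    have h1 : ((p + 1) * t) ^ 2 / ((p + 1) * ((p + 2) * K + (s + p) * t)) =
        ((p + 1) * t ^ 2) / ((p + 2) * K + (s + p) * t) := by
      have : (0:ℝ) < p + 1 := by positivity
      field_simp
    rw [h1]
    have h2 : t - K < ((p + 1) * t ^ 2) / ((p + 2) * K + (s + p) * t) := by
      rw [lt_div_iff₀ hden]
      nlinarith [E3]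
    linarith
  have E5 : t < K + ((T G W p σ).card : ℝ) := by linarith
  rw [hK, ht] at E5
  exact_mod_cast E5

/-- If a graph on `W` has no clique with `n + 2` vertices, every vertex is nonadjacent to at most `s`
vertices (itself included) and `|W| ≥ n s + 2`, then its flag complex has a nonzero cycle in
dimension `n`. -/
theorem exists_cycle (G : SimpleGraph V) (s : ℕ) : ∀ (n : ℕ) (W : Finset V),
    cl G W (n + 2) = ∅ → (∀ x ∈ W, (non G W x).card ≤ s) → n * s + 2 ≤ W.card →
    ∃ z : Finset V → k, z ≠ 0 ∧ (∀ F, z F ≠ 0 → F ⊆ W ∧ G.IsNClique (n + 1) F) ∧ bd z = 0 := by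
  classical
  intro n
  induction n with
  | zero =>
    intro W hno _ hW
    have h2 : 1 < W.card := by omega
    obtain ⟨c, hc, c', hc', hne⟩ := Finset.one_lt_card.1 h2
    refine susp (k := k) G 0 ∅ W (Finset.empty_subset _) c c' (Finset.notMem_empty _)
      (Finset.notMem_empty _) hne hc hc' (by simp) (by simp) (fun F => if F = ∅ then 1 else 0)
      ?_ ?_ ?_
    · intro h
      have := congrFun h ∅
      simp at this
    · intro F hF
      have : F = ∅ := by
        by_contra h
        simp [h] at hF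
      subst this
      exact ⟨Finset.Subset.refl _, by simp [SimpleGraph.isNClique_iff]⟩
    · funext F
      simp [bd]
  | succ p ih =>
    intro W0 hno0 hnon0 hW0
    -- pass to a subset with exactly (p+1)s+2 elements
    obtain ⟨W, hWW0, hW⟩ := Finset.exists_subset_card_eq hW0
    have hno : cl G W (p + 3) = ∅ := by
      rw [Finset.eq_empty_iff_forall_notMem] at hno0 ⊢
      intro Q hQ
      obtain ⟨h1, h2⟩ := mem_cl.1 hQ
      exact hno0 Q (mem_cl.2 ⟨h1.trans hWW0, h2⟩)
    have hnon : ∀ x ∈ W, (non G W x).card ≤ s := by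
      intro x hx
      refine le_trans (Finset.card_le_card ?_) (hnon0 x (hWW0 hx))
      intro y hy
      obtain ⟨h1, h2⟩ := mem_non.1 hy
      exact mem_non.2 ⟨hWW0 h1, h2⟩
    suffices h : ∃ z : Finset V → k, z ≠ 0 ∧
        (∀ F, z F ≠ 0 → F ⊆ W ∧ G.IsNClique (p + 1 + 1) F) ∧ bd z = 0 by
      obtain ⟨z, h1, h2, h3⟩ := h
      exact ⟨z, h1, fun F hF => ⟨(h2 F hF).1.trans hWW0, (h2 F hF).2⟩, h3⟩
    by_cases hlt : ∀ R ∈ cl G W (p + 1), (ext G W R).card + 1 ≤ s
    · obtain ⟨σ, hσ⟩ := count G W p s hno hnon hW hlt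
      exact exists_kernel G W p σ hσ
    · push Not at hlt
      obtain ⟨R, hR, hRs⟩ := hlt
      set C := ext G W R with hC
      have hCW : C ⊆ W := fun c hc => (mem_ext.1 hc).1
      -- vertices of C are pairwise nonadjacent
      have hCC : ∀ c ∈ C, C ⊆ non G W c := by
        intro c hc c' hc'
        refine mem_non.2 ⟨hCW hc', fun hadj => ?_⟩
        have h1 := insert_mem_cl hR hc
        have h2 : c' ∈ ext G W (insert c R) := by
          refine mem_ext.2 ⟨hCW hc', fun x hx => ?_⟩
          rcases Finset.mem_insert.1 hx with h | h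
          · rw [h]; exact hadj
          · exact (mem_ext.1 hc').2 x h
        have h3 := insert_mem_cl h1 h2
        rw [show p + 1 + 1 + 1 = p + 3 by ring, hno] at h3
        exact absurd h3 (Finset.notMem_empty _)
      have hCeq : ∀ c ∈ C, C = non G W c := by
        intro c hc
        exact Finset.eq_of_subset_of_card_le (hCC c hc) (by have := hnon c (hCW hc); omega)
      have hCs : C.card ≤ s := by
        have h1 : 0 < C.card := by
          have := card_le_ext G W R s (fun x hx => hnon x ((mem_cl.1 hR).1 hx))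
          rw [(mem_cl.1 hR).2.2, hW] at this
          rw [hC]
          omega
        obtain ⟨c, hc⟩ := Finset.card_pos.1 h1
        exact (Finset.card_le_card (hCC c hc)).trans (hnon c (hCW hc))
      have hC2 : 1 < C.card := by
        have := card_le_ext G W R s (fun x hx => hnon x ((mem_cl.1 hR).1 hx))
        rw [(mem_cl.1 hR).2.2, hW] at this
        rw [hC]
        omega
      obtain ⟨c, hc, c', hc', hne⟩ := Finset.one_lt_card.1 hC2
      have hadj : ∀ d ∈ C, ∀ x ∈ W \ C, G.Adj d x := by
        intro d hd x hx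
        rw [Finset.mem_sdiff] at hx
        by_contra h
        apply hx.2
        rw [hCeq d hd]
        exact mem_non.2 ⟨hx.1, h⟩
      have hno' : cl G (W \ C) (p + 2) = ∅ := by
        rw [Finset.eq_empty_iff_forall_notMem]
        intro Q hQ
        obtain ⟨h1, h2⟩ := mem_cl.1 hQ
        have h3 : insert c Q ∈ cl G W (p + 3) := by
          refine insert_mem_cl (mem_cl.2 ⟨h1.trans Finset.sdiff_subset, h2⟩) ?_
          exact mem_ext.2 ⟨hCW hc, fun x hx => (hadj c hc x (h1 hx)).symm⟩
        rw [hno] at h3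
        exact absurd h3 (Finset.notMem_empty _)
      have hnon' : ∀ x ∈ W \ C, (non G (W \ C) x).card ≤ s := by
        intro x hx
        refine le_trans (Finset.card_le_card ?_) (hnon x (Finset.mem_sdiff.1 hx).1)
        intro y hy
        obtain ⟨h1, h2⟩ := mem_non.1 hy
        exact mem_non.2 ⟨(Finset.mem_sdiff.1 h1).1, h2⟩
      have hcard' : p * s + 2 ≤ (W \ C).card := by
        rw [Finset.card_sdiff_of_subset hCW, hW]
        have e : (p + 1) * s = p * s + s := by ring
        rw [e]
        omega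
      obtain ⟨z, hz, hzs, hzb⟩ := ih (W \ C) hno' hnon' hcard'
      exact susp G (p + 1) (W \ C) W Finset.sdiff_subset c c'
        (fun h => (Finset.mem_sdiff.1 h).2 hc) (fun h => (Finset.mem_sdiff.1 h).2 hc') hne
        (hCW hc) (hCW hc') (hadj c hc) (hadj c' hc') z hz hzs hzb

end Pool.Agent.H38.Flag
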