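import Pool.Agent.H38.Flag.D

/-!
# The bound on the number of edges
-/

namespace Pool.Agent.H38.Flag

open Finset

variable {V : Type*} [Fintype V] [LinearOrder V] {k : Type*} [Field k]

open Classical in
/-- Twice the number of edges in `W`. -/
noncomputable def dsum (G : SimpleGraph V) (W : Finset V) : ℕ :=
  ∑ x ∈ W, (W.filter (fun y => G.Adj x y)).card

lemma dsum_erase (G : SimpleGraph V) (W : Finset V) (x : V) (hx : x ∈ W) :
    dsum G W + 2 * (non G W x).card = dsum G (W.erase x) + 2 * W.card := by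
  classical
  have h0 : W.card = (W.filter (fun y => G.Adj x y)).card + (non G W x).card := by
    unfold non
    rw [Finset.card_filter_add_card_filter_not]
  have h1 : dsum G W = dsum G (W.erase x) + 2 * (W.filter (fun y => G.Adj x y)).card := by
    unfold dsum
    rw [← Finset.add_sum_erase W _ hx]
    have h2 : ∀ y ∈ W.erase x, (W.filter (fun z => G.Adj y z)).card =
        ((W.erase x).filter (fun z => G.Adj y z)).card + (if G.Adj x y then 1 else 0) := by
      intro y _
      conv_lhs => rw [← Finset.insert_erase hx]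
      rw [Finset.filter_insert]
      by_cases hxy : G.Adj x y
      · rw [if_pos hxy.symm, if_pos hxy, Finset.card_insert_of_notMem]
        simp
      · rw [if_neg (fun h => hxy h.symm), if_neg hxy]
        rfl
    rw [Finset.sum_congr rfl h2, Finset.sum_add_distrib]
    have h3 : ∑ y ∈ W.erase x, (if G.Adj x y then 1 else 0) =
        (W.filter (fun y => G.Adj x y)).card := by
      rw [← Finset.card_filter]
      congr 1
      ext y
      simp only [Finset.mem_filter, Finset.mem_erase]
      constructor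
      · rintro ⟨⟨_, h⟩, h'⟩
        exact ⟨h, h'⟩
      · rintro ⟨h, h'⟩
        exact ⟨⟨h'.ne', h⟩, h'⟩
    rw [h3]
    ring
  omega

lemma mod_step (n m : ℕ) (hn : 1 ≤ n) :
    (((m + 1) % n : ℕ) : ℤ) * ((n : ℤ) - ((m + 1) % n : ℕ)) =
      (((m % n : ℕ) : ℤ) + 1) * ((n : ℤ) - (m % n : ℕ) - 1) := by
  have h1 : m % n < n := Nat.mod_lt _ (by omega)
  rcases Nat.lt_or_ge (m % n + 1) n with h | h
  · have h2 : (m + 1) % n = m % n + 1 := by
      rw [Nat.add_mod]
      rcases Nat.lt_or_ge 1 n with h3 | h3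
      · rw [Nat.mod_eq_of_lt h3, Nat.mod_eq_of_lt h]
      · omega
    rw [h2]
    push_cast
    ring
  · have h3 : m % n + 1 = n := by omega
    have h2 : (m + 1) % n = 0 := by
      rw [← Nat.mod_add_mod, h3, Nat.mod_self]
    rw [h2]
    have h4 : (n : ℤ) - (m % n : ℕ) - 1 = 0 := by
      have : ((m % n : ℕ) : ℤ) + 1 = n := by exact_mod_cast h3
      linarith
    rw [h4]
    simp

/-- The bound on the number of edges. -/
theorem dsum_le (G : SimpleGraph V) (n : ℕ) (hn : 1 ≤ n) : ∀ (m : ℕ) (W : Finset V),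
    W.card = m + 1 → cl G W (n + 2) = ∅ →
    (∀ z : Finset V → k, (∀ F, z F ≠ 0 → F ⊆ W ∧ G.IsNClique (n + 1) F) → bd z = 0 → z = 0) →
    (n : ℤ) * dsum G W + ((m % n : ℕ) : ℤ) * ((n : ℤ) - (m % n : ℕ)) ≤
      2 * n * m + (n - 1) * m ^ 2 := by
  classical
  intro m
  induction m with
  | zero =>
    intro W hW _ _
    obtain ⟨a, rfl⟩ := Finset.card_eq_one.1 hW
    have h1 : dsum G {a} = 0 := by
      unfold dsum
      rw [Finset.sum_singleton, Finset.card_eq_zero, Finset.filter_eq_empty_iff]
      intro y hy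
      rw [Finset.mem_singleton.1 hy]
      exact G.irrefl
    rw [h1]
    simp
  | succ m ih =>
    intro W hW hno hcyc
    have hWne : W.Nonempty := by
      rw [← Finset.card_pos]; omega
    obtain ⟨x, hx, hmax⟩ := Finset.exists_max_image W (fun x => (non G W x).card) hWne
    set s := (non G W x).card with hs
    -- no cycle, so `W` is small
    have hlt : ¬ (n * s + 2 ≤ W.card) := by
      intro h
      obtain ⟨z, hz, hzs, hzb⟩ := exists_cycle (k := k) G s n W hno hmax h
      exact hz (hcyc z hzs hzb)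
    rw [hW] at hlt
    have hms : m < n * s := by omega
    have hq : m / n + 1 ≤ s := by
      have : m / n < s := by
        rw [Nat.div_lt_iff_lt_mul (by omega), mul_comm]
        exact hms
      omega
    have hcard' : (W.erase x).card = m + 1 := by
      rw [Finset.card_erase_of_mem hx, hW]
      rfl
    have hno' : cl G (W.erase x) (n + 2) = ∅ := by
      rw [Finset.eq_empty_iff_forall_notMem] at hno ⊢
      intro Q hQ
      obtain ⟨h1, h2⟩ := mem_cl.1 hQ
      exact hno Q (mem_cl.2 ⟨h1.trans (Finset.erase_subset _ _), h2⟩)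
    have hcyc' : ∀ z : Finset V → k, (∀ F, z F ≠ 0 → F ⊆ W.erase x ∧ G.IsNClique (n + 1) F) →
        bd z = 0 → z = 0 := by
      intro z hz hb
      exact hcyc z (fun F hF => ⟨(hz F hF).1.trans (Finset.erase_subset _ _), (hz F hF).2⟩) hb
    have IH := ih (W.erase x) hcard' hno' hcyc'
    have hd := dsum_erase G W x hx
    rw [← hs, hW] at hd
    have hdZ : (dsum G W : ℤ) = dsum G (W.erase x) + 2 * (m + 2) - 2 * s := by
      have : (dsum G W : ℤ) + 2 * s = dsum G (W.erase x) + 2 * (m + 1 + 1) := by exact_mod_cast hd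
      linarith
    have hdm : ((n : ℤ)) * ((m / n : ℕ) : ℤ) + ((m % n : ℕ) : ℤ) = m := by
      exact_mod_cast Nat.div_add_mod m n
    have hqZ : ((m / n : ℕ) : ℤ) + 1 ≤ s := by exact_mod_cast hq
    have hnZ : (1 : ℤ) ≤ n := by exact_mod_cast hn
    rw [mod_step n m hn, hdZ]
    have hmul : (n : ℤ) * (((m / n : ℕ) : ℤ) + 1) ≤ n * s :=
      mul_le_mul_of_nonneg_left hqZ (by linarith)
    generalize ((m % n : ℕ) : ℤ) = r at IH hdm ⊢
    generalize ((m / n : ℕ) : ℤ) = q at hmul hdm
    push_cast
    nlinarith [IH, hmul, hdm]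

lemma dsum_univ (G : SimpleGraph V) : dsum G Finset.univ = 2 * G.edgeSet.ncard := by
  classical
  have h1 := G.sum_degrees_eq_twice_card_edges
  have h2 : G.edgeSet.ncard = G.edgeFinset.card := by
    rw [Set.ncard_eq_toFinset_card']
    rfl
  rw [h2, ← h1]
  unfold dsum
  refine Finset.sum_congr rfl fun x _ => ?_
  rw [← SimpleGraph.card_neighborFinset_eq_degree]
  congr 1
  ext y
  simp

end Pool.Agent.H38.Flag
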